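import Mathlib
import Pool.Agent.H93S.RB.Cls
import Pool.Agent.TH335.RF.R1
set_option autoImplicit false

/-! Densities which depend on the norms of blocks of coordinates: induction on the dimension. -/

namespace Pool.Agent.H93S.RB

open MeasureTheory Set Complex
open scoped ENNReal RealInnerProductSpace
open Pool.Agent.H789R2.FR (E sg T sg_finite)
open Pool.Agent.H438R2.BR (Phi J J_mp J_inner)
open Pool.Agent.H438R2.BR.T10 (e0 e0_norm)
open Pool.Agent.H438R2.PD (P1 P2 P1_meas P2_meas T_meas' T_le T_comp)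
open Pool.Agent.TH335.RF (Gf Gf_meas wt wt_meas gu gu_meas gu_le T_gu line_mp Hyp RT)

/-- `G` depends only on the coordinates which form a class of their own, and on the norms of the
classes of coordinates -/
def Dep {n s : ℕ} (c : Fin n → Fin s) (G : E n → ℂ) : Prop :=
  ∀ x x' : E n, (∀ i, (∀ j, c j = c i → j = i) → x i = x' i) →
    (∀ a : Fin s, ∑ i with c i = a, x i ^ 2 = ∑ i with c i = a, x' i ^ 2) → G x = G x'

/-- the estimate for these densities -/
def Est (s n : ℕ) (q : ℝ) : Prop := ∃ C : ℝ, 0 < C ∧ ∀ c : Fin n → Fin s, Function.Surjective c →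
  ∀ G : E n → ℂ, Measurable G → (∀ x, ‖G x‖ ≤ 1) → Dep c G →
    ∫⁻ z, ‖T G z‖ₑ ^ q ≤ ENNReal.ofReal C

/-- the class of functions for the lifting -/
def Cl (s k m : ℕ) (F : E m → ℂ) : Prop :=
  ∃ c' : Fin (1 + m) → Fin s, Function.Surjective c' ∧ Dep c' (gu k F)

theorem hypC_of_est (s k m : ℕ) (hk : 2 ≤ k) (hm : 1 ≤ m) (P : ℝ) (h : Est s (1 + m) P) :
    HypC (Cl s k m) k P := by
  obtain ⟨C, hC, hT⟩ := h
  intro δ hδ
  refine ⟨C, hC, fun F hA hFm hF s hs => ?_⟩
  obtain ⟨c', hc', hD⟩ := hA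
  have hgm := gu_meas k F hFm
  have hTm : Measurable fun z : E (1 + m) => ‖T (gu k F) z‖ₑ ^ P := (T_meas' _ hgm).enorm.pow_const P
  have hJm : Measurable fun p : E 1 × E m => J p.1 p.2 := (J_mp 1 m).measurable
  have hGm : Measurable fun r : ℝ => ∫⁻ y : E m, ‖Gf k F r y‖ₑ ^ P :=
    ((Gf_meas k F hFm).enorm.pow_const P).lintegral_prod_right'
  have e1 : ∫⁻ z, ‖T (gu k F) z‖ₑ ^ P = ∫⁻ r : ℝ, ∫⁻ y : E m, ‖Gf k F r y‖ₑ ^ P := by
    rw [← (J_mp 1 m).lintegral_comp hTm, lintegral_prod]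
    · have hm2 : Measurable fun x : E 1 => ∫⁻ y : E m, ‖T (gu k F) (J x y)‖ₑ ^ P :=
        (hTm.comp hJm).lintegral_prod_right'
      rw [← line_mp.lintegral_comp hm2]
      refine lintegral_congr fun r => lintegral_congr fun y => ?_
      rw [T_gu k hm F hFm r y]
    · exact (hTm.comp hJm).aemeasurable
  calc ∫⁻ r in Ioi (1 : ℝ), ENNReal.ofReal (r ^ (-δ)) * ∫⁻ y : E m, ‖Gf k F (s * r) y‖ₑ ^ P
      ≤ ∫⁻ r in Ioi (1 : ℝ), ∫⁻ y : E m, ‖Gf k F (s * r) y‖ₑ ^ P := by
        refine setLIntegral_mono' measurableSet_Ioi fun r hr => ?_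
        have hr' : (1 : ℝ) < r := hr
        calc ENNReal.ofReal (r ^ (-δ)) * ∫⁻ y : E m, ‖Gf k F (s * r) y‖ₑ ^ P
            ≤ 1 * ∫⁻ y : E m, ‖Gf k F (s * r) y‖ₑ ^ P := by
              gcongr
              rw [ENNReal.ofReal_le_one]
              exact Real.rpow_le_one_of_one_le_of_nonpos hr'.le (by linarith)
          _ = _ := one_mul _
    _ ≤ ∫⁻ r : ℝ, ∫⁻ y : E m, ‖Gf k F (s * r) y‖ₑ ^ P := setLIntegral_le_lintegral _ _
    _ = ∫⁻ r : ℝ, ∫⁻ y : E m, ‖Gf k F r y‖ₑ ^ P := by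
        rcases hs with rfl | rfl
        · simp
        · simp only [neg_one_mul]
          exact (Measure.measurePreserving_neg (volume : Measure ℝ)).lintegral_comp hGm
    _ ≤ _ := by
        rw [← e1]
        exact hT c' hc' (gu k F) hgm (gu_le k hk F hF) hD

theorem hypC_of_hyp (A : {m : ℕ} → (E m → ℂ) → Prop) (k m : ℕ) (P : ℝ) (h : Hyp k m P) :
    HypC (A (m := m)) k P := by
  intro δ hδ
  obtain ⟨C, hC, h1⟩ := h δ hδ
  exact ⟨C, hC, fun F _ hFm hF s hs => h1 F hFm hF s hs⟩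

/-- class sums in the coordinates of `E (k + m)` -/
theorem class_sum {s k m : ℕ} (c : Fin (k + m) → Fin s) (a0 : Fin s)
    (h1 : ∀ i : Fin k, c (Fin.castAdd m i) = a0) (a : Fin s) (z : E (k + m)) :
    ∑ i with c i = a, z i ^ 2 = (if a = a0 then ‖P1 k m z‖ ^ 2 else 0) +
      ∑ j with c (Fin.natAdd k j) = a, (P2 k m z) j ^ 2 := by
  rw [Finset.sum_filter, Fin.sum_univ_add, Finset.sum_filter]
  congr 1
  simp only [h1]
  by_cases h : a = a0
  · rw [if_pos h, EuclideanSpace.norm_eq, Real.sq_sqrt (by positivity)]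
    simp [h, P1]
  · rw [if_neg h]
    have h' : ¬ a0 = a := fun h' => h h'.symm
    simp [h']

theorem norm_P2_sq {s k m : ℕ} (c : Fin m → Fin s) (z : E (k + m)) :
    ‖P2 k m z‖ ^ 2 = ∑ a, ∑ j with c j = a, (P2 k m z) j ^ 2 := by
  rw [EuclideanSpace.norm_eq, Real.sq_sqrt (by positivity)]
  rw [Finset.sum_fiberwise]
  simp

theorem J_P (k m : ℕ) (z : E (k + m)) : J (P1 k m z) (P2 k m z) = z := by
  unfold J P1 P2
  ext i
  refine Fin.addCases (fun j => ?_) (fun j => ?_) i
  · simp [Fin.append_left]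
  · simp [Fin.append_right]

theorem norm_sq_P (k m : ℕ) (z : E (k + m)) : ‖z‖ ^ 2 = ‖P1 k m z‖ ^ 2 + ‖P2 k m z‖ ^ 2 := by
  conv_lhs => rw [← J_P k m z]
  rw [← real_inner_self_eq_norm_sq, J_inner, real_inner_self_eq_norm_sq,
    real_inner_self_eq_norm_sq]


/-- the function on the ball -/
noncomputable def Fb {k m : ℕ} (e : E k) (G : E (k + m) → ℂ) (y : E m) : ℂ := G (J (wt y • e) y)

theorem Fb_meas {k m : ℕ} (e : E k) (G : E (k + m) → ℂ) (hG : Measurable G) :
    Measurable (Fb e G) := by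
  unfold Fb
  have h1 : Measurable fun p : E k × E m => J p.1 p.2 := (J_mp k m).measurable
  have h2 : Measurable fun y : E m => ((wt y • e, y) : E k × E m) :=
    (wt_meas.smul_const _).prodMk measurable_id
  exact hG.comp (h1.comp h2)

theorem wt_sq {m : ℕ} (y : E m) (hy : ‖y‖ ≤ 1) : wt y ^ 2 = 1 - ‖y‖ ^ 2 := by
  unfold wt
  rw [Real.sq_sqrt]
  have := norm_nonneg y
  nlinarith

theorem P1_J (k m : ℕ) (x : E k) (y : E m) : P1 k m (J x y) = x := Pool.Agent.H438R2.PD.P1_J x y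

theorem P2_J (k m : ℕ) (x : E k) (y : E m) : P2 k m (J x y) = y := Pool.Agent.H438R2.PD.P2_J x y

/-- the class `a0` of at least two coordinates is eliminated on the sphere -/
theorem elim {s k m : ℕ} (hk : 2 ≤ k) (c : Fin (k + m) → Fin s) (a0 : Fin s)
    (h1 : ∀ i : Fin k, c (Fin.castAdd m i) = a0) (h2 : ∀ j : Fin m, c (Fin.natAdd k j) ≠ a0)
    (e : E k) (he : ‖e‖ = 1) (G : E (k + m) → ℂ) (hG : Dep c G) (z : E (k + m)) (hz : ‖z‖ = 1) :
    G z = Fb e G (P2 k m z) := by
  unfold Fb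
  have hn := norm_sq_P k m z
  have hy : ‖P2 k m z‖ ≤ 1 := by
    rw [hz] at hn
    have := norm_nonneg (P2 k m z)
    nlinarith [sq_nonneg ‖P1 k m z‖]
  apply hG
  · intro i
    refine Fin.addCases (fun j => ?_) (fun j => ?_) i
    · intro h
      exfalso
      obtain ⟨j', hj'⟩ : ∃ j' : Fin k, j' ≠ j := by
        have : Nontrivial (Fin k) := Fin.nontrivial_iff_two_le.2 hk
        exact exists_ne j
      have h3 := h (Fin.castAdd m j') (by rw [h1, h1])
      exact hj' (Fin.castAdd_injective k m h3)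
    · intro _
      have h3 : (P2 k m z) j = z (Fin.natAdd k j) := by simp [P2]
      rw [← h3]
      conv_rhs => rw [show (J (wt (P2 k m z) • e) (P2 k m z)) (Fin.natAdd k j) =
        (P2 k m (J (wt (P2 k m z) • e) (P2 k m z))) j by simp [P2]]
      rw [P2_J]
  · intro a
    rw [class_sum c a0 h1, class_sum c a0 h1, P2_J, P1_J]
    congr 1
    by_cases ha : a = a0
    · rw [if_pos ha, if_pos ha, norm_smul, he, mul_one, Real.norm_eq_abs, sq_abs, wt_sq _ hy]
      rw [hz] at hn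
      linarith
    · rw [if_neg ha, if_neg ha]

/-- the new classes -/
def newc {s k m : ℕ} (c : Fin (k + m) → Fin s) (a0 : Fin s) : Fin (1 + m) → Fin s :=
  Fin.append (fun _ => a0) (fun j => c (Fin.natAdd k j))

theorem newc_surj {s k m : ℕ} (c : Fin (k + m) → Fin s) (a0 : Fin s)
    (h1 : ∀ i : Fin k, c (Fin.castAdd m i) = a0) (hc : Function.Surjective c) :
    Function.Surjective (newc c a0) := by
  intro a
  obtain ⟨i, hi⟩ := hc a
  revert hi
  refine Fin.addCases (fun j => ?_) (fun j => ?_) i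
  · intro hi
    refine ⟨Fin.castAdd m 0, ?_⟩
    rw [h1] at hi
    simp [newc, Fin.append_left, hi]
  · intro hi
    refine ⟨Fin.natAdd 1 j, ?_⟩
    simp [newc, Fin.append_right, hi]

theorem dep_gu {s k m : ℕ} (hk : 2 ≤ k) (c : Fin (k + m) → Fin s) (a0 : Fin s)
    (h1 : ∀ i : Fin k, c (Fin.castAdd m i) = a0) (h2 : ∀ j : Fin m, c (Fin.natAdd k j) ≠ a0)
    (e : E k) (G : E (k + m) → ℂ) (hG : Dep c G) :
    Dep (newc c a0) (gu k (Fb e G)) := by
  intro z z' hs hsum
  have hc1 : ∀ i : Fin 1, newc c a0 (Fin.castAdd m i) = a0 := by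
    intro i
    simp [newc, Fin.append_left]
  have hc2 : ∀ j : Fin m, newc c a0 (Fin.natAdd 1 j) = c (Fin.natAdd k j) := by
    intro j
    simp [newc, Fin.append_right]
  have hz0 : (P1 1 m z) 0 = (P1 1 m z') 0 := by
    have h3 := hs (Fin.castAdd m 0) (by
      intro j
      refine Fin.addCases (fun i => ?_) (fun i => ?_) j
      · intro _
        congr 1
        exact Subsingleton.elim _ _
      · intro h
        rw [hc1, hc2] at h
        exact absurd h (h2 i))
    simpa [P1] using h3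
  have hsum' : ∀ a, a ≠ a0 → ∑ j with c (Fin.natAdd k j) = a, (P2 1 m z) j ^ 2 =
      ∑ j with c (Fin.natAdd k j) = a, (P2 1 m z') j ^ 2 := by
    intro a ha
    have h3 := hsum a
    rw [class_sum _ a0 hc1, class_sum _ a0 hc1, if_neg ha, if_neg ha, zero_add, zero_add] at h3
    simpa only [hc2] using h3
  have hsum0 : ∀ a, ∑ j with c (Fin.natAdd k j) = a, (P2 1 m z) j ^ 2 =
      ∑ j with c (Fin.natAdd k j) = a, (P2 1 m z') j ^ 2 := by
    intro a
    by_cases ha : a = a0
    · have h3 : (Finset.univ.filter fun j : Fin m => c (Fin.natAdd k j) = a) = ∅ := by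
        apply Finset.filter_eq_empty_iff.2
        intro j _
        rw [ha]
        exact h2 j
      rw [h3]
      simp
    · exact hsum' a ha
  have hnorm : ‖P2 1 m z‖ ^ 2 = ‖P2 1 m z'‖ ^ 2 := by
    rw [norm_P2_sq (fun j => c (Fin.natAdd k j)), norm_P2_sq (fun j => c (Fin.natAdd k j))]
    exact Finset.sum_congr rfl fun a _ => hsum0 a
  have hw : wt (P2 1 m z) = wt (P2 1 m z') := by
    unfold wt
    rw [hnorm]
  have hF : Fb e G (P2 1 m z) = Fb e G (P2 1 m z') := by
    unfold Fb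
    apply hG
    · intro i
      refine Fin.addCases (fun j => ?_) (fun j => ?_) i
      · intro _
        simp [J, Fin.append_left, hw]
      · intro h
        have h3 : z (Fin.natAdd 1 j) = z' (Fin.natAdd 1 j) := by
          apply hs
          intro i'
          refine Fin.addCases (fun l => ?_) (fun l => ?_) i'
          · intro h4
            rw [hc1, hc2] at h4
            exact absurd h4.symm (h2 j)
          · intro h4
            rw [hc2, hc2] at h4
            have h5 := h (Fin.natAdd k l) h4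
            have h6 := Fin.natAdd_injective m k h5
            rw [h6]
        simp [J, Fin.append_right, P2, h3]
    · intro a
      rw [class_sum c a0 h1, class_sum c a0 h1, P1_J, P1_J, P2_J, P2_J, hw, hsum0 a]
  unfold gu
  simp only [indicator, mem_ofPred_eq, hz0, hF]

theorem ae_norm (n : ℕ) : ∀ᵐ w ∂(sg n), ‖w‖ = 1 := by
  unfold sg
  rw [ae_map_iff measurable_subtype_coe.aemeasurable
    (measurableSet_eq_fun measurable_norm measurable_const)]
  exact Filter.Eventually.of_forall fun x => by simp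

/-- the step, classes in normal form -/
theorem step_nf {s k m : ℕ} (hk : 2 ≤ k) (hm : 1 ≤ m) (P q : ℝ) (hP : 2 < P)
    (hyp : HypC (Cl s k m) k P) (h : 1 < (q - 2) * (((k : ℝ) - 1) / 2 + 1 / (P - 2))) :
    ∃ C : ℝ, 0 < C ∧ ∀ c : Fin (k + m) → Fin s, Function.Surjective c → ∀ a0,
      (∀ i : Fin k, c (Fin.castAdd m i) = a0) → (∀ j : Fin m, c (Fin.natAdd k j) ≠ a0) →
      ∀ G : E (k + m) → ℂ, Measurable G → (∀ x, ‖G x‖ ≤ 1) → Dep c G →
        ∫⁻ z, ‖T G z‖ₑ ^ q ≤ ENNReal.ofReal C := by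
  obtain ⟨C, hC, hT⟩ := T_bound (Cl s k m) k hk hm P q hP hyp h
  refine ⟨C, hC, fun c hc a0 h1 h2 G hG hb hD => ?_⟩
  set e : E k := EuclideanSpace.single ⟨0, by omega⟩ 1 with he
  have he1 : ‖e‖ = 1 := by simp [he]
  have hTG : ∀ z, T G z = T (fun z : E (k + m) => Fb e G (P2 k m z)) z := by
    intro z
    unfold T
    apply integral_congr_ae
    filter_upwards [ae_norm (k + m)] with w hw
    rw [elim hk c a0 h1 h2 e he1 G hD w hw]
  simp only [hTG]
  exact hT (Fb e G) ⟨newc c a0, newc_surj c a0 h1 hc, dep_gu hk c a0 h1 h2 e G hD⟩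
    (Fb_meas e G hG) (fun y => hb _)

/-- the step -/
theorem step {s k m : ℕ} (hk : 2 ≤ k) (hm : 1 ≤ m) (P q : ℝ) (hP : 2 < P)
    (hyp : HypC (Cl s k m) k P) (h : 1 < (q - 2) * (((k : ℝ) - 1) / 2 + 1 / (P - 2))) :
    ∃ C : ℝ, 0 < C ∧ ∀ c : Fin (k + m) → Fin s, Function.Surjective c → ∀ a0,
      Fintype.card {i // c i = a0} = k →
      ∀ G : E (k + m) → ℂ, Measurable G → (∀ x, ‖G x‖ ≤ 1) → Dep c G →
        ∫⁻ z, ‖T G z‖ₑ ^ q ≤ ENNReal.ofReal C := by
  obtain ⟨C, hC, hT⟩ := step_nf hk hm P q hP hyp h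
  refine ⟨C, hC, fun c hc a0 hcard G hG hb hD => ?_⟩
  have hcard2 : Fintype.card {i // ¬ c i = a0} = m := by
    rw [Fintype.card_subtype_compl, hcard, Fintype.card_fin]
    omega
  set σ : Fin (k + m) ≃ Fin (k + m) := finSumFinEquiv.symm.trans
    ((Equiv.sumCongr (Fintype.equivFinOfCardEq hcard).symm
      (Fintype.equivFinOfCardEq hcard2).symm).trans (Equiv.sumCompl fun i => c i = a0)) with hσ
  have hσ1 : ∀ i : Fin k, c (σ (Fin.castAdd m i)) = a0 := by
    intro i
    rw [hσ]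
    simp only [Equiv.trans_apply, finSumFinEquiv_symm_apply_castAdd, Equiv.sumCongr_apply,
      Sum.map_inl, Equiv.sumCompl_apply_inl]
    exact ((Fintype.equivFinOfCardEq hcard).symm i).2
  have hσ2 : ∀ j : Fin m, c (σ (Fin.natAdd k j)) ≠ a0 := by
    intro j
    rw [hσ]
    simp only [Equiv.trans_apply, finSumFinEquiv_symm_apply_natAdd, Equiv.sumCongr_apply,
      Sum.map_inr, Equiv.sumCompl_apply_inr]
    exact ((Fintype.equivFinOfCardEq hcard2).symm j).2
  set L : E (k + m) ≃ₗᵢ[ℝ] E (k + m) := LinearIsometryEquiv.piLpCongrLeft 2 ℝ ℝ σ with hL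
  have hLx : ∀ (x : E (k + m)) i, (L x) i = x (σ.symm i) := by
    intro x i
    rw [hL]
    rfl
  have hD' : Dep (fun i => c (σ i)) (fun x => G (L x)) := by
    intro x x' h1 h2
    apply hD
    · intro i hi
      rw [hLx, hLx]
      apply h1
      intro j hj
      simp only [Equiv.apply_symm_apply] at hj
      rw [← hi (σ j) hj, Equiv.symm_apply_apply]
    · intro a
      simp only [hLx]
      have h3 := h2 a
      rw [Finset.sum_filter, Finset.sum_filter] at h3 ⊢
      rw [← Equiv.sum_comp σ, ← Equiv.sum_comp σ (fun i => if c i = a then x' (σ.symm i) ^ 2 else 0)]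
      simpa only [Equiv.symm_apply_apply] using h3
  have h3 := hT (fun i => c (σ i)) (hc.comp σ.surjective) a0 hσ1 hσ2 (fun x => G (L x))
    (hG.comp L.continuous.measurable) (fun x => hb _) hD'
  have h4 : ∫⁻ z, ‖T (fun x => G (L x)) z‖ₑ ^ q = ∫⁻ z, ‖T G z‖ₑ ^ q := by
    simp_rw [T_comp]
    exact L.measurePreserving.lintegral_comp ((T_meas' G hG).enorm.pow_const q)
  rwa [h4] at h3

theorem exists_P (k : ℕ) (hk : 2 ≤ k) (B q : ℝ) (hB : 0 < B)
    (h : 1 < (q - 2) * (((k : ℝ) - 1) / 2 + B)) : ∃ P : ℝ, 2 < P ∧ 1 / (P - 2) < B ∧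
    1 < (q - 2) * (((k : ℝ) - 1) / 2 + 1 / (P - 2)) := by
  have hk' : (2 : ℝ) ≤ k := by exact_mod_cast hk
  have hq : 0 < q - 2 := by
    by_contra hc
    have : (q - 2) * (((k : ℝ) - 1) / 2 + B) ≤ 0 :=
      mul_nonpos_of_nonpos_of_nonneg (not_lt.1 hc) (by linarith)
    linarith
  have h1 : 1 / (q - 2) - ((k : ℝ) - 1) / 2 < B := by
    have h2 : 1 / (q - 2) < ((k : ℝ) - 1) / 2 + B := by
      rw [div_lt_iff₀ hq, mul_comm]
      exact h
    linarith
  obtain ⟨v, hv1, hv2⟩ := exists_between (max_lt h1 hB)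
  have hv0 : 0 < v := lt_of_le_of_lt (le_max_right _ _) hv1
  have hv3 : 1 / (q - 2) - ((k : ℝ) - 1) / 2 < v := lt_of_le_of_lt (le_max_left _ _) hv1
  refine ⟨2 + 1 / v, by linarith [one_div_pos.2 hv0], ?_, ?_⟩
  · rw [add_sub_cancel_left, one_div_one_div]
    exact hv2
  · rw [add_sub_cancel_left, one_div_one_div]
    have h4 : 1 / (q - 2) < ((k : ℝ) - 1) / 2 + v := by linarith
    rw [div_lt_iff₀ hq] at h4
    rw [mul_comm]
    exact h4

/-- the induction -/
theorem ind (s : ℕ) (hs : 2 ≤ s) (P : ℝ) (hP : 2 < P) (base : ∀ k, 2 ≤ k → Hyp k (s - 1) P)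
    (n : ℕ) : s < n → ∀ q : ℝ, 1 < (q - 2) * (((n : ℝ) - s) / 2 + 1 / (P - 2)) → Est s n q := by
  induction n using Nat.strong_induction_on with
  | _ n ih =>
    intro hn q hq
    -- the estimate for a class of `k` coordinates
    have key : ∀ k m : ℕ, 2 ≤ k → 1 ≤ m → k + m = n → s ≤ 1 + m → ∃ C : ℝ, 0 < C ∧
        ∀ c : Fin (k + m) → Fin s, Function.Surjective c → ∀ a0,
        Fintype.card {i // c i = a0} = k →
        ∀ G : E (k + m) → ℂ, Measurable G → (∀ x, ‖G x‖ ≤ 1) → Dep c G →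
        ∫⁻ z, ‖T G z‖ₑ ^ q ≤ ENNReal.ofReal C := by
      intro k m hk hm hkm hsm
      have hP2 : 0 < P - 2 := by linarith
      have hcast : (n : ℝ) = k + m := by rw [← hkm]; push_cast; ring
      rcases hsm.eq_or_lt with h0 | h0
      · -- all other classes are single
        have hm' : s - 1 = m := by omega
        have h1 := base k hk
        rw [hm'] at h1
        refine step hk hm P q hP ?_ ?_
        · intro δ hδ
          obtain ⟨C, hC, h2⟩ := h1 δ hδ
          exact ⟨C, hC, fun F _ hFm hF s hs => h2 F hFm hF s hs⟩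
        · have h3 : (s : ℝ) = 1 + m := by rw [h0]; push_cast; ring
          rw [hcast, h3] at hq
          have h4 : (k : ℝ) + m - (1 + m) = k - 1 := by ring
          rwa [h4] at hq
      · have hB : 0 < (((1 + m : ℕ) : ℝ) - s) / 2 + 1 / (P - 2) := by
          have h3 : (s : ℝ) < ((1 + m : ℕ) : ℝ) := by exact_mod_cast h0
          have h4 : 0 < 1 / (P - 2) := one_div_pos.2 hP2
          linarith
        obtain ⟨P', hP', hPB, h5⟩ := exists_P k hk _ q hB (by
          have h6 : ((k : ℝ) - 1) / 2 + ((((1 + m : ℕ) : ℝ) - s) / 2 + 1 / (P - 2)) =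
              ((n : ℝ) - s) / 2 + 1 / (P - 2) := by
            rw [hcast]; push_cast; ring
          rw [h6]
          exact hq)
        have hest : Est s (1 + m) P' := by
          apply ih (1 + m) (by omega) h0 P'
          have hP'2 : 0 < P' - 2 := by linarith
          rw [div_lt_iff₀ hP'2] at hPB
          rw [mul_comm]
          exact hPB
        exact step hk hm P' q hP' (hypC_of_est s k m hk hm P' hest) h5
    -- the maximum of the constants
    have key2 : ∀ k : ℕ, ∃ C : ℝ, 0 < C ∧ (2 ≤ k → 1 ≤ n - k → s ≤ 1 + (n - k) →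
        ∀ c : Fin n → Fin s, Function.Surjective c → ∀ a0,
        Fintype.card {i // c i = a0} = k →
        ∀ G : E n → ℂ, Measurable G → (∀ x, ‖G x‖ ≤ 1) → Dep c G →
        ∫⁻ z, ‖T G z‖ₑ ^ q ≤ ENNReal.ofReal C) := by
      intro k
      by_cases h1 : 2 ≤ k ∧ 1 ≤ n - k ∧ s ≤ 1 + (n - k)
      · obtain ⟨h2, h3, h4⟩ := h1
        obtain ⟨m, rfl⟩ : ∃ m, n = k + m := ⟨n - k, by omega⟩
        have h5 : k + m - k = m := by omega
        rw [h5] at h3 h4
        obtain ⟨C, hC, h6⟩ := key k m h2 h3 rfl h4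
        exact ⟨C, hC, fun _ _ _ => h6⟩
      · exact ⟨1, one_pos, fun h2 h3 h4 => absurd ⟨h2, h3, h4⟩ h1⟩
    choose C hC hCk using key2
    refine ⟨∑ k ∈ Finset.range (n + 1), C k, ?_, ?_⟩
    · exact Finset.sum_pos (fun k _ => hC k) ⟨0, by simp⟩
    intro c hc G hG hb hD
    -- a class with at least two elements
    obtain ⟨i1, i2, hne, hii⟩ : ∃ i1 i2, i1 ≠ i2 ∧ c i1 = c i2 :=
      Fintype.exists_ne_map_eq_of_card_lt c (by simpa using hn)
    set a0 := c i1 with ha0
    set k := Fintype.card {i // c i = a0} with hk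
    have hk2 : 2 ≤ k := by
      rw [hk]
      have : Nontrivial {i // c i = a0} :=
        ⟨⟨⟨i1, rfl⟩, ⟨i2, hii.symm⟩, fun h => hne (congrArg Subtype.val h)⟩⟩
      exact Fintype.one_lt_card
    have hkn : k ≤ n := by
      have := Fintype.card_subtype_le fun i => c i = a0
      rwa [Fintype.card_fin] at this
    -- the other classes
    have hother : s - 1 ≤ n - k := by
      have h1 : Fintype.card {a : Fin s // a ≠ a0} = s - 1 := by simp
      have h2 : Fintype.card {i // ¬ c i = a0} = n - k := by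
        rw [Fintype.card_subtype_compl, Fintype.card_fin]
      rw [← h1, ← h2]
      apply Fintype.card_le_of_surjective
        (fun i : {i // ¬ c i = a0} => (⟨c i.1, i.2⟩ : {a : Fin s // a ≠ a0}))
      rintro ⟨a, ha⟩
      obtain ⟨i, hi⟩ := hc a
      exact ⟨⟨i, by rw [hi]; exact ha⟩, Subtype.ext hi⟩
    refine (hCk k hk2 (by omega) (by omega) c hc a0 hk.symm G hG hb hD).trans ?_
    apply ENNReal.ofReal_le_ofReal
    exact Finset.single_le_sum (f := C) (fun i _ => (hC i).le) (Finset.mem_range.2 (by omega))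

end Pool.Agent.H93S.RB
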